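import Pool.Agent.H47.KS.Targets

/-!
MP_90d669_co: row RIC of the board ksu_modules.
-/

set_option autoImplicit false

namespace Pool.Agent.H6.KS

open Finset Pool.Agent.H47.KS

theorem pf_RIC : T_RIC := by
  intro U F t r B hF hB
  classical
  set W : (Fin r → Finset ℤ) → Finset (Finset ℤ) := fun T =>
    (U.powerset).filter (fun S => (∀ i, T i ⊆ S) ∧ ∀ i j, i ≠ j → Disjoint (T i) (T j)) with hWdef
  have hsub : B ⊆ (Fintype.piFinset (fun _ : Fin r => F)).biUnion W := by
    intro S hS
    obtain ⟨hSU, T, hT, hd⟩ := hB S hS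
    refine mem_biUnion.2 ⟨T, Fintype.mem_piFinset.2 (fun i => (hT i).1), ?_⟩
    exact mem_filter.2 ⟨mem_powerset.2 hSU, fun i => (hT i).2, hd⟩
  have hW : ∀ T ∈ Fintype.piFinset (fun _ : Fin r => F),
      (W T).card * 2 ^ (t * r) ≤ 2 ^ U.card := by
    intro T hT
    have hT' : ∀ i, T i ∈ F := fun i => Fintype.mem_piFinset.1 hT i
    rcases (W T).eq_empty_or_nonempty with h0 | ⟨S0, hS0⟩
    · rw [h0]; simp
    · have h1 := mem_filter.1 hS0
      have hU0 : S0 ⊆ U := mem_powerset.1 h1.1
      set V : Finset ℤ := (univ : Finset (Fin r)).biUnion T with hV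
      have hVU : V ⊆ U := by
        intro z hz
        obtain ⟨i, _, hi⟩ := mem_biUnion.1 hz
        exact hU0 (h1.2.1 i hi)
      have hVc : t * r ≤ V.card := by
        rw [hV, card_biUnion (fun i _ j _ hij => h1.2.2 i j hij)]
        calc t * r = ∑ _i : Fin r, t := by simp [mul_comm]
          _ ≤ ∑ i : Fin r, (T i).card := sum_le_sum (fun i _ => hF _ (hT' i))
      have hsub2 : W T ⊆ ((U \ V).powerset).image (fun X => X ∪ V) := by
        intro S hS
        have h2 := mem_filter.1 hS
        have hSU : S ⊆ U := mem_powerset.1 h2.1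
        have hVS : V ⊆ S := by
          intro z hz
          obtain ⟨i, _, hi⟩ := mem_biUnion.1 hz
          exact h2.2.1 i hi
        refine mem_image.2 ⟨S \ V, mem_powerset.2 (sdiff_subset_sdiff hSU (Subset.refl _)), ?_⟩
        exact sdiff_union_of_subset hVS
      have hc1 : (W T).card ≤ 2 ^ (U \ V).card := by
        refine (card_le_card hsub2).trans (card_image_le.trans ?_)
        rw [card_powerset]
      have hc2 : (U \ V).card + V.card = U.card := card_sdiff_add_card_eq_card hVU
      calc (W T).card * 2 ^ (t * r) ≤ 2 ^ (U \ V).card * 2 ^ V.card :=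
            Nat.mul_le_mul hc1 (Nat.pow_le_pow_right (by norm_num) hVc)
        _ = 2 ^ U.card := by rw [← pow_add, hc2]
  calc B.card * 2 ^ (t * r)
      ≤ ((Fintype.piFinset (fun _ : Fin r => F)).biUnion W).card * 2 ^ (t * r) :=
        Nat.mul_le_mul_right _ (card_le_card hsub)
    _ ≤ (∑ T ∈ Fintype.piFinset (fun _ : Fin r => F), (W T).card) * 2 ^ (t * r) :=
        Nat.mul_le_mul_right _ card_biUnion_le
    _ = ∑ T ∈ Fintype.piFinset (fun _ : Fin r => F), (W T).card * 2 ^ (t * r) := by
        rw [sum_mul]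
    _ ≤ ∑ _T ∈ Fintype.piFinset (fun _ : Fin r => F), 2 ^ U.card := sum_le_sum hW
    _ = F.card ^ r * 2 ^ U.card := by
        rw [sum_const, smul_eq_mul, Fintype.card_piFinset]
        simp

end Pool.Agent.H6.KS
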